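import Pool.Agent.ACK.StmtsD

set_option autoImplicit false

namespace Pool.Agent.ACK.H24

open Pool.Agent.ACK Pool.Agent.ACK.D

theorem lab : LabStmt := by
  intro c L s α inn out hc hlen hnd hch hx T hT
  have : NeZero (2 * c) := ⟨by omega⟩
  have hval : ∀ i : ZMod (2 * c), i.val < L.length := fun i => by
    rw [hlen]; exact ZMod.val_lt i
  let g : ZMod (2 * c) → ℕ × Bool := fun i => L[i.val]'(hval i)
  have ginj : ∀ i j, g i = g j → i = j := by
    intro i j h
    have h1 := (List.Nodup.getElem_inj_iff hnd).1 h
    exact ZMod.val_injective _ h1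
  have gw : ∀ i, wd c (L.map Prod.fst) i = (g i).1 := by
    intro i
    unfold wd
    rw [List.getD_eq_getElem _ _ (by rw [List.length_map]; exact hval i)]
    simp [g]
  have hstep : ∀ i, out (g (i - 1)) = inn (g i) := by
    intro i
    have h1 := List.isChain_iff_getElem.1 hch (i - 1).val (by
      have := hval (i - 1)
      rw [List.length_append, List.length_take]
      omega)
    have h2 : i.val = ((i - 1).val + 1) % (2 * c) := by
      have h3 : (i - 1 + 1).val = ((i - 1).val + (1 : ZMod (2 * c)).val) % (2 * c) :=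
        ZMod.val_add _ _
      rw [sub_add_cancel, ZMod.val_one_eq_one_mod, Nat.mod_eq_of_lt (show 1 < 2 * c by omega)]
        at h3
      exact h3
    have e1 : (L ++ L.take 1)[(i - 1).val]'(by
        have := hval (i - 1); rw [List.length_append]; omega) = g (i - 1) := by
      rw [List.getElem_append_left (hval _)]
    have e2 : (L ++ L.take 1)[(i - 1).val + 1]'(by
        have := hval (i - 1); rw [List.length_append, List.length_take]; omega) = g i := by
      have hv := hval (i - 1)
      rcases Nat.lt_or_ge ((i - 1).val + 1) L.length with h | h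
      · rw [List.getElem_append_left h]
        rw [hlen] at h
        rw [Nat.mod_eq_of_lt h] at h2
        simp only [g, h2]
      · have h5 : (i - 1).val + 1 = 2 * c := by omega
        rw [h5, Nat.mod_self] at h2
        rw [List.getElem_append_right h]
        simp only [List.getElem_take, g, h2]
        congr 1
        omega
    rw [e1, e2] at h1
    exact h1
  have key : ∀ p q, CR (wd c (L.map Prod.fst)) s p q → out (g p) = out (g q) := by
    rintro p q ⟨i, j, hij, hw, h⟩
    rw [gw, gw] at hw
    rw [gw] at h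
    have hi : g i ∈ L := List.getElem_mem _
    have hj : g j ∈ L := List.getElem_mem _
    have hne : g i ≠ g j := fun h => hij (ginj i j h)
    have h1 := hstep i
    have h2 := hstep j
    have main : ∀ gi gj : ℕ × Bool, gi ∈ L → gj ∈ L → gi ≠ gj → gi.1 = gj.1 →
        (s gi.1 = true → inn gi = out gj) ∧
          (s gi.1 = false → inn gi = inn gj ∧ out gi = out gj) := by
      rintro ⟨x, t⟩ ⟨y, t'⟩ hi hj hne hw
      simp only at hw
      subst hw
      cases t <;> cases t'
      · exact absurd rfl hne
      · obtain ⟨ht, hf⟩ := hx x hj hi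
        exact ⟨fun h => (ht h).1, fun h => ⟨(hf h).1, (hf h).2⟩⟩
      · obtain ⟨ht, hf⟩ := hx x hi hj
        exact ⟨fun h => (ht h).2, fun h => ⟨(hf h).1.symm, (hf h).2.symm⟩⟩
      · exact absurd rfl hne
    obtain ⟨m1, m2⟩ := main (g i) (g j) hi hj hne hw
    rcases h with ⟨h0, hp, hq⟩ | ⟨h0, ⟨hp, hq⟩ | ⟨hp, hq⟩⟩
    · rw [hp, hq, h1]
      exact m1 h0
    · rw [hp, hq, h1, h2]
      exact (m2 h0).1
    · rw [hp, hq]
      exact (m2 h0).2
  let F : Quot (CR (wd c (L.map Prod.fst)) s) → α := Quot.lift (fun i => out (g i)) key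
  have hsurj : ∀ t : T, ∃ z, F z = t.1 := by
    rintro ⟨t, ht⟩
    obtain ⟨p, hp, h⟩ := hT t ht
    obtain ⟨k, hk, hk2⟩ := List.getElem_of_mem hp
    have hk3 : ((k : ℕ) : ZMod (2 * c)).val = k := ZMod.val_natCast_of_lt (by omega)
    have hg : g ((k : ℕ) : ZMod (2 * c)) = p := by
      rw [← hk2]
      simp only [g, hk3]
    rcases h with h | h
    · exact ⟨Quot.mk _ ((k : ℕ) : ZMod (2 * c)), (congrArg out hg).trans h⟩
    · exact ⟨Quot.mk _ (((k : ℕ) : ZMod (2 * c)) - 1),
        (hstep _).trans ((congrArg inn hg).trans h)⟩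
  choose z hz using hsurj
  have hzinj : Function.Injective z := by
    intro a b h
    apply Subtype.ext
    rw [← hz a, ← hz b, h]
  have := Nat.card_le_card_of_injective z hzinj
  rwa [Nat.card_eq_fintype_card, Fintype.card_coe] at this

end Pool.Agent.ACK.H24
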